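import Pool.Agent.HM94.MSC.Thin
import Pool.Agent.HM94.MSC.Wide

/-!
# Monotone SC and monotone NC are incomparable

A register program computes with `w` registers holding one bit each; in one step a register gets
an input bit, a constant, or the NOT, AND, OR of the contents of registers.  Polynomial length and
polylogarithmically many registers correspond to SC; polynomial size and polylogarithmic depth of
circuits correspond to NC.

* `thin C` (layered path systems with polylogarithmically many columns and elements) has monotone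
  programs of linear length with `(log n) ^ (3 C + 4)` registers, but circuits with at most
  `2 ^ ((log n) ^ C)` gates need depth `|L| / (log n) ^ (2 C + 1) - 1`, even if NOT may be applied
  to all functions which do not depend on the bits of the layers in `L`; there are at least
  `n / (log n) ^ (7 C + 9)` layers.
* `wide b T` (`T` layers, `2 ^ b` columns) has monotone circuits of linear size and depth
  `O(T b)`, but monotone programs of length `2 ^ r`, `r b < T`, need more than `2 ^ b / (32 r)`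
  registers.
-/

set_option autoImplicit false

namespace Pool.Agent.Results.MP_1a6d78_lc.MonotoneIncomparable

open Filter Finset Pool.Agent.HM94.MSC

/-- Nonuniform monotone SC. -/
def MonoSC (F : (n : ℕ) → (Fin n → Bool) → Bool) : Prop :=
  ∃ K : ℕ, ∀ᶠ n in atTop, ∃ (w : ℕ) (P : List (Instr (Fin n) (Fin w))) (o : Fin w),
    w ≤ Nat.log 2 n ^ K ∧ P.length ≤ n ^ K ∧ MonoProg P ∧ ∀ x, exec x P o = F n x

/-- Nonuniform monotone NC. -/
def MonoNC (F : (n : ℕ) → (Fin n → Bool) → Bool) : Prop :=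
  ∃ K : ℕ, ∀ᶠ n in atTop, ∃ (s : ℕ) (Ci : Circ (Fin n) s) (o : Fin s),
    s ≤ n ^ K ∧ Ci.depth o ≤ Nat.log 2 n ^ K ∧ Ci.Mono ∧ ∀ x, Ci.val x o = F n x

theorem ev_pow (K : ℕ) : ∀ᶠ b : ℕ in atTop, b ^ K ≤ 2 ^ b := by
  have h := tendsto_pow_const_div_const_pow_of_one_lt K (r := (2 : ℝ)) (by norm_num)
  have h2 := h.eventually (gt_mem_nhds (show (0 : ℝ) < 1 by norm_num))
  refine h2.mono fun b hb => ?_
  rw [div_lt_one (by positivity)] at hb
  exact_mod_cast hb.le

theorem tendsto_log : Tendsto (Nat.log 2) atTop atTop := by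
  refine tendsto_atTop.2 fun b => ?_
  filter_upwards [eventually_ge_atTop (2 ^ b)] with n hn
  exact (Nat.le_log_iff_pow_le (by norm_num) (by
    have : 0 < 2 ^ b := by positivity
    omega)).2 hn

theorem tendsto_div8 : Tendsto (fun n => Nat.log 2 n / 8) atTop atTop := by
  refine tendsto_atTop.2 fun b => ?_
  filter_upwards [tendsto_log.eventually (eventually_ge_atTop (8 * b))] with n hn
  omega

theorem ev_log_pow (K : ℕ) : ∀ᶠ n : ℕ in atTop, 2 * Nat.log 2 n ^ K < n := by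
  filter_upwards [tendsto_log.eventually (ev_pow (K + 1)),
    tendsto_log.eventually (eventually_ge_atTop 3), eventually_ge_atTop 1] with n h1 h2 h3
  have h4 := Nat.pow_log_le_self 2 (show n ≠ 0 by omega)
  have h5 : 0 < Nat.log 2 n ^ K := pow_pos (by omega) _
  rw [pow_succ] at h1
  nlinarith

theorem part1 (C : ℕ) : ∀ᶠ n in atTop,
    (∃ (w : ℕ) (P : List (Instr (Fin n) (Fin w))) (o : Fin w), w ≤ Nat.log 2 n ^ (3 * C + 4) ∧
      P.length ≤ 9 * n ∧ MonoProg P ∧ ∀ x, exec x P o = thin C n x) ∧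
    n ≤ Nat.log 2 n ^ (7 * C + 9) * thinT C n ∧
    ∀ (L : Finset (Fin (thinT C n))) (s : ℕ) (Ci : Circ (Fin n) s) (o : Fin s),
      s ≤ 2 ^ (Nat.log 2 n ^ C) → Ci.NegOutside (bitsOf (k := thinK C n) (thin_le C n) L) →
      (∀ x, Ci.val x o = thin C n x) → L.card ≤ Nat.log 2 n ^ (2 * C + 1) * (Ci.depth o + 1) := by
  filter_upwards [tendsto_log.eventually (eventually_ge_atTop 17), ev_log_pow (7 * C + 9),
    eventually_ge_atTop 1] with n h17 hbig hn1
  set lam := Nat.log 2 n with hlam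
  have hl1 : 1 ≤ lam := by omega
  have hk : thinK C n ≤ 3 * lam ^ C := by
    unfold thinK
    rw [← hlam]
    have : 1 ≤ lam ^ C := Nat.one_le_pow _ _ hl1
    omega
  have hk1 : 1 ≤ thinK C n := by unfold thinK; omega
  have hm : thinM C n = 4 * lam ^ (2 * C + 2) := by unfold thinM; rw [← hlam]
  have hm1 : 1 ≤ thinM C n := by
    rw [hm]
    have : 1 ≤ lam ^ (2 * C + 2) := Nat.one_le_pow _ _ hl1
    omega
  have hkm : thinK C n * (thinM C n * (thinM C n * thinM C n)) ≤ 192 * lam ^ (7 * C + 6) := by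
    calc thinK C n * (thinM C n * (thinM C n * thinM C n))
        ≤ 3 * lam ^ C * (thinM C n * (thinM C n * thinM C n)) := Nat.mul_le_mul_right _ hk
      _ = 192 * (lam ^ C * (lam ^ (2 * C + 2) * (lam ^ (2 * C + 2) * lam ^ (2 * C + 2)))) := by
          rw [hm]; ring
      _ = 192 * lam ^ (7 * C + 6) := by
          rw [← pow_add, ← pow_add, ← pow_add]
          congr 2; ring
  have hkm0 : 0 < thinK C n * (thinM C n * (thinM C n * thinM C n)) := by positivity
  have h384 : 384 * lam ^ (7 * C + 6) ≤ lam ^ (7 * C + 9) := by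
    calc 384 * lam ^ (7 * C + 6) ≤ lam ^ 3 * lam ^ (7 * C + 6) := by
          refine Nat.mul_le_mul_right _ ?_
          calc 384 ≤ 17 ^ 3 := by norm_num
            _ ≤ lam ^ 3 := Nat.pow_le_pow_left h17 _
      _ = lam ^ (7 * C + 9) := by rw [← pow_add]; congr 1; ring
  have hT : 1 ≤ thinT C n := by
    unfold thinT
    rw [Nat.le_div_iff_mul_le hkm0, one_mul]
    omega
  have hle := thin_le C n
  refine ⟨?_, ?_, ?_⟩
  · obtain ⟨P, hP, hlen, o, ho⟩ := thin_upper C n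
    refine ⟨_, P, o, ?_, ?_, hP, ho⟩
    · calc 2 * (thinK C n * thinM C n) + 2 ≤ 2 * (3 * lam ^ C * (4 * lam ^ (2 * C + 2))) + 2 := by
            rw [hm]
            have := Nat.mul_le_mul_right (4 * lam ^ (2 * C + 2)) hk
            omega
        _ = 24 * lam ^ (3 * C + 2) + 2 := by
            have : lam ^ (3 * C + 2) = lam ^ C * lam ^ (2 * C + 2) := by
              rw [← pow_add]; congr 1; ring
            rw [this]; ring
        _ ≤ lam ^ 2 * lam ^ (3 * C + 2) := by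
            have h1 : 1 ≤ lam ^ (3 * C + 2) := Nat.one_le_pow _ _ hl1
            have h2 : 26 ≤ lam ^ 2 := by nlinarith
            calc 24 * lam ^ (3 * C + 2) + 2 ≤ 26 * lam ^ (3 * C + 2) := by omega
              _ ≤ lam ^ 2 * lam ^ (3 * C + 2) := Nat.mul_le_mul_right _ h2
        _ = lam ^ (3 * C + 4) := by rw [← pow_add]; congr 1; ring
    · rw [hlen]
      set T := thinT C n
      set k := thinK C n
      set m := thinM C n
      have e1 : k * m ≤ n := by
        calc k * m = 1 * (k * (m * (1 * 1))) := by ring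
          _ ≤ T * (k * (m * (m * m))) := Nat.mul_le_mul hT
              (Nat.mul_le_mul_left _ (Nat.mul_le_mul_left _ (Nat.mul_le_mul hm1 hm1)))
          _ ≤ n := hle
      have e2 : T * (k * m * (1 + 4 * (m * m))) ≤ 5 * n := by
        calc T * (k * m * (1 + 4 * (m * m))) ≤ T * (k * m * (5 * (m * m))) := by
              have : 1 ≤ m * m := Nat.mul_pos hm1 hm1
              exact Nat.mul_le_mul_left _ (Nat.mul_le_mul_left _ (by omega))
          _ = 5 * (T * (k * (m * (m * m)))) := by ring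
          _ ≤ 5 * n := Nat.mul_le_mul_left _ hle
      have e3 : m ≤ n := (Nat.le_mul_of_pos_left m hk1).trans e1
      omega
  · -- the number of layers
    have h4 : n < (thinT C n + 1) * (thinK C n * (thinM C n * (thinM C n * thinM C n))) := by
      unfold thinT
      rw [mul_comm]
      exact Nat.lt_mul_div_succ n hkm0
    calc n ≤ (thinT C n + 1) * (thinK C n * (thinM C n * (thinM C n * thinM C n))) := h4.le
      _ ≤ (2 * thinT C n) * (192 * lam ^ (7 * C + 6)) := Nat.mul_le_mul (by omega) hkm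
      _ = (384 * lam ^ (7 * C + 6)) * thinT C n := by ring
      _ ≤ lam ^ (7 * C + 9) * thinT C n := Nat.mul_le_mul_right _ h384
  · intro L s Ci o hs hneg ho
    refine (thin_num h17 hT L hs Ci hneg o ho).trans ?_
    rw [← hlam]
    have hd1 : 1 ≤ lam ^ C := Nat.one_le_pow _ _ hl1
    calc (Ci.depth o + 1) * ((2 * lam ^ C + 1) * (2 * lam ^ C))
        ≤ (Ci.depth o + 1) * ((3 * lam ^ C) * (2 * lam ^ C)) :=
          Nat.mul_le_mul_left _ (Nat.mul_le_mul_right _ (by omega))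
      _ = (Ci.depth o + 1) * (6 * lam ^ (2 * C)) := by
          rw [two_mul C, pow_add]; ring
      _ ≤ (Ci.depth o + 1) * (lam * lam ^ (2 * C)) :=
          Nat.mul_le_mul_left _ (Nat.mul_le_mul_right _ (by omega))
      _ = lam ^ (2 * C + 1) * (Ci.depth o + 1) := by rw [← pow_succ']; ring

theorem part2 (C : ℕ) : ∀ᶠ n in atTop,
    (∃ (s : ℕ) (Ci : Circ (Fin n) s) (o : Fin s), s ≤ 6 * n ∧
      Ci.depth o ≤ Nat.log 2 n ^ (C + 4) ∧ Ci.Mono ∧
      ∀ x, Ci.val x o = wide (Nat.log 2 n / 8) ((Nat.log 2 n / 8) ^ (C + 2)) n x) ∧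
    ∀ (w : ℕ) (P : List (Instr (Fin n) (Fin w))) (o : Fin w),
      P.length ≤ 2 ^ (Nat.log 2 n ^ C) → MonoProg P →
      (∀ x, exec x P o = wide (Nat.log 2 n / 8) ((Nat.log 2 n / 8) ^ (C + 2)) n x) →
      n ≤ (Nat.log 2 n ^ (C + 2) * w) ^ 8 := by
  filter_upwards [tendsto_div8.eventually (ev_pow (C + 3)),
    tendsto_div8.eventually (eventually_ge_atTop (9 ^ C + 14)), eventually_ge_atTop 1]
    with n h1 h2 h3
  set lam := Nat.log 2 n with hlam
  set b := lam / 8 with hb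
  have hn : n ≠ 0 := by omega
  have h15 : 1 ≤ 9 ^ C := Nat.one_le_pow _ _ (by norm_num)
  have hb14 : 14 ≤ b := by omega
  have hlb : lam ≤ 8 * b + 7 := by omega
  have h8b : 8 * b ≤ lam := Nat.mul_div_le _ _
  have hB : lam ^ C * b < b ^ (C + 2) := by
    calc lam ^ C * b ≤ (9 * b) ^ C * b :=
          Nat.mul_le_mul_right _ (Nat.pow_le_pow_left (by omega) _)
      _ = 9 ^ C * b ^ (C + 1) := by rw [mul_pow, pow_succ]; ring
      _ < b * b ^ (C + 1) := Nat.mul_lt_mul_of_pos_right (by omega) (pow_pos (by omega) _)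
      _ = b ^ (C + 2) := by rw [← pow_succ']
  have hle : wideN b (b ^ (C + 2)) ≤ n := by
    rw [wideN_eq]
    calc b ^ (C + 2) * 2 ^ (7 * b + 3) = 8 * b ^ (C + 2) * 2 ^ (7 * b) := by
          rw [pow_add]; ring
      _ ≤ b * b ^ (C + 2) * 2 ^ (7 * b) :=
          Nat.mul_le_mul_right _ (Nat.mul_le_mul_right _ (by omega))
      _ = b ^ (C + 3) * 2 ^ (7 * b) := by rw [← pow_succ']
      _ ≤ 2 ^ b * 2 ^ (7 * b) := Nat.mul_le_mul_right _ h1
      _ = 2 ^ (8 * b) := by rw [← pow_add]; congr 1; ring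
      _ ≤ 2 ^ lam := Nat.pow_le_pow_right (by norm_num) h8b
      _ ≤ n := Nat.pow_log_le_self 2 hn
  refine ⟨?_, ?_⟩
  · obtain ⟨s, Ci, o, hs, hm, ho, hd⟩ := wide_upper hle (Nat.one_le_pow _ _ (by omega))
    refine ⟨s, Ci, o, hs.trans (Nat.mul_le_mul_left _ hle), hd.trans ?_, hm, ho⟩
    have hb1 : 1 ≤ b ^ (C + 2) := Nat.one_le_pow _ _ (by omega)
    calc b ^ (C + 2) * (4 * b + 4) + (4 * b + 2)
        ≤ b ^ (C + 2) * (8 * b) + b ^ (C + 2) * (6 * b) := by
          refine Nat.add_le_add (Nat.mul_le_mul_left _ (by omega)) ?_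
          calc 4 * b + 2 ≤ 6 * b := by omega
            _ ≤ b ^ (C + 2) * (6 * b) := Nat.le_mul_of_pos_left _ hb1
      _ = 14 * b ^ (C + 3) := by rw [pow_succ b (C + 2)]; ring
      _ ≤ b * b ^ (C + 3) := Nat.mul_le_mul_right _ hb14
      _ = b ^ (C + 4) := by rw [← pow_succ']
      _ ≤ lam ^ (C + 4) := Nat.pow_le_pow_left (by omega) _
  · intro w P o hlen hmono ho
    have h4 := wide_lower hle (r := lam ^ C) (Nat.one_le_pow _ _ (by omega)) hB P hmono hlen o ho
    have hnlt : n < 2 ^ (lam + 1) := Nat.lt_pow_succ_log_self (by norm_num) n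
    have h5 : 2 * 2 ^ b ≤ lam ^ (C + 2) * w := by
      calc 2 * 2 ^ b ≤ 2 * (32 * lam ^ C * w) := Nat.mul_le_mul_left _ h4.le
        _ = 64 * lam ^ C * w := by ring
        _ ≤ lam ^ 2 * lam ^ C * w := by
            refine Nat.mul_le_mul_right _ (Nat.mul_le_mul_right _ ?_)
            calc 64 ≤ 14 ^ 2 := by norm_num
              _ ≤ lam ^ 2 := Nat.pow_le_pow_left (by omega) _
        _ = lam ^ (C + 2) * w := by rw [← pow_add, add_comm 2 C]
    calc n ≤ 2 ^ (lam + 1) := hnlt.le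
      _ ≤ 2 ^ (8 * (b + 1)) := Nat.pow_le_pow_right (by norm_num) (by omega)
      _ = (2 * 2 ^ b) ^ 8 := by rw [← pow_succ', ← pow_mul]; congr 1; ring
      _ ≤ (lam ^ (C + 2) * w) ^ 8 := Nat.pow_le_pow_left h5 _

theorem n_pow_le {n K : ℕ} (h : 2 * K ≤ Nat.log 2 n) (h1 : 1 ≤ Nat.log 2 n) :
    n ^ K ≤ 2 ^ (Nat.log 2 n ^ 2) := by
  have hnlt : n < 2 ^ (Nat.log 2 n + 1) := Nat.lt_pow_succ_log_self (by norm_num) n
  calc n ^ K ≤ (2 ^ (Nat.log 2 n + 1)) ^ K := Nat.pow_le_pow_left hnlt.le _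
    _ = 2 ^ ((Nat.log 2 n + 1) * K) := by rw [← pow_mul]
    _ ≤ 2 ^ (Nat.log 2 n ^ 2) := by
        refine Nat.pow_le_pow_right (by norm_num) ?_
        nlinarith

/-- A function of small depth. -/
noncomputable def near (n : ℕ) : (Fin n → Bool) → Bool :=
  wide (Nat.log 2 (Nat.log 2 n) ^ 2) (Nat.log 2 n * Nat.log 2 (Nat.log 2 n) ^ 3) n

theorem near_le : ∀ᶠ n in atTop,
    6 * wideN (Nat.log 2 (Nat.log 2 n) ^ 2) (Nat.log 2 n * Nat.log 2 (Nat.log 2 n) ^ 3) ≤ n := by
  filter_upwards [(tendsto_log.comp tendsto_log).eventually (ev_pow 3),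
    (tendsto_log.comp tendsto_log).eventually (ev_pow 1),
    (tendsto_log.comp tendsto_log).eventually (eventually_ge_atTop 8), eventually_ge_atTop 1]
    with n h1 h1' h2 h3
  simp only [Function.comp_apply] at h1 h1' h2
  set lam := Nat.log 2 n with hlam
  set mu := Nat.log 2 lam with hmu
  have hlam0 : lam ≠ 0 := by
    intro h0
    rw [hmu, h0] at h2
    simp at h2
  have hl : lam < 2 ^ (mu + 1) := Nat.lt_pow_succ_log_self (by norm_num) lam
  have hl' : 2 ^ mu ≤ lam := Nat.pow_log_le_self 2 hlam0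
  rw [wideN_eq]
  have h4 : mu ^ 3 ≤ 2 ^ (3 * mu) := by
    rw [mul_comm, pow_mul]
    rw [pow_one] at h1'
    exact Nat.pow_le_pow_left h1' _
  calc 6 * (lam * mu ^ 3 * 2 ^ (7 * mu ^ 2 + 3))
      ≤ 2 ^ 3 * (2 ^ (mu + 1) * 2 ^ (3 * mu) * 2 ^ (7 * mu ^ 2 + 3)) :=
        Nat.mul_le_mul (by norm_num) (Nat.mul_le_mul_right _ (Nat.mul_le_mul hl.le h4))
    _ = 2 ^ (3 + (mu + 1 + 3 * mu + (7 * mu ^ 2 + 3))) := by
        rw [← pow_add, ← pow_add, ← pow_add]
    _ ≤ 2 ^ lam := by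
        refine Nat.pow_le_pow_right (by norm_num) ?_
        have h5 : 3 + (mu + 1 + 3 * mu + (7 * mu ^ 2 + 3)) ≤ 8 * mu ^ 2 := by nlinarith
        have h6 : 8 * mu ^ 2 ≤ mu ^ 3 := by
          calc 8 * mu ^ 2 ≤ mu * mu ^ 2 := Nat.mul_le_mul_right _ h2
            _ = mu ^ 3 := by ring
        omega
    _ ≤ n := Nat.pow_log_le_self 2 (by omega)

theorem near_upper : ∀ᶠ n in atTop, ∃ (s : ℕ) (Ci : Circ (Fin n) s) (o : Fin s), s ≤ n ∧
    Ci.depth o ≤ Nat.log 2 n * Nat.log 2 (Nat.log 2 n) ^ 6 ∧ Ci.Mono ∧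
    ∀ x, Ci.val x o = near n x := by
  filter_upwards [near_le,
    (tendsto_log.comp tendsto_log).eventually (eventually_ge_atTop 14),
    tendsto_log.eventually (eventually_ge_atTop 1)] with n h1 h2 h3
  simp only [Function.comp_apply] at h2
  set lam := Nat.log 2 n with hlam
  set mu := Nat.log 2 lam with hmu
  have hT : 1 ≤ lam * mu ^ 3 := Nat.mul_pos h3 (pow_pos (by omega) _)
  obtain ⟨s, Ci, o, hs, hm, ho, hd⟩ := wide_upper (b := mu ^ 2) (T := lam * mu ^ 3) (n := n)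
    (by omega) hT
  refine ⟨s, Ci, o, by omega, hd.trans ?_, hm, ho⟩
  have hmu1 : 1 ≤ mu ^ 2 := Nat.one_le_pow _ _ (by omega)
  calc lam * mu ^ 3 * (4 * mu ^ 2 + 4) + (4 * mu ^ 2 + 2)
      ≤ lam * mu ^ 3 * (8 * mu ^ 2) + lam * mu ^ 3 * (6 * mu ^ 2) := by
        refine Nat.add_le_add (Nat.mul_le_mul_left _ (by omega)) ?_
        calc 4 * mu ^ 2 + 2 ≤ 6 * mu ^ 2 := by omega
          _ ≤ lam * mu ^ 3 * (6 * mu ^ 2) := Nat.le_mul_of_pos_left _ hT
    _ = 14 * (lam * mu ^ 5) := by ring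
    _ ≤ mu * (lam * mu ^ 5) := Nat.mul_le_mul_right _ h2
    _ = lam * mu ^ 6 := by ring

theorem near_lower : ¬ MonoSC near := by
  rintro ⟨K, hK⟩
  obtain ⟨n, h1, h2, h3, h4, h5⟩ := (hK.and (near_le.and
    (((tendsto_log.comp tendsto_log).eventually (eventually_ge_atTop (2 * K + 6))).and
    ((tendsto_log.eventually (eventually_ge_atTop (64 * K + 33))).and
      (eventually_ge_atTop 1))))).exists
  obtain ⟨w, P, o, b1, b2, b3, b4⟩ := h1
  simp only [Function.comp_apply] at h3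
  unfold near at b4
  set lam := Nat.log 2 n with hlam
  set mu := Nat.log 2 lam with hmu
  have hlen : P.length ≤ 2 ^ (2 * K * lam + 1) := by
    have hnlt : n < 2 ^ (lam + 1) := Nat.lt_pow_succ_log_self (by norm_num) n
    calc P.length ≤ n ^ K := b2
      _ ≤ (2 ^ (lam + 1)) ^ K := Nat.pow_le_pow_left hnlt.le _
      _ = 2 ^ ((lam + 1) * K) := by rw [← pow_mul]
      _ ≤ 2 ^ (2 * K * lam + 1) := by
          refine Nat.pow_le_pow_right (by norm_num) ?_
          nlinarith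
  have hrT : (2 * K * lam + 1) * mu ^ 2 < lam * mu ^ 3 := by
    have h6 : 0 < mu ^ 2 := pow_pos (by omega) _
    calc (2 * K * lam + 1) * mu ^ 2 ≤ ((2 * K + 1) * lam) * mu ^ 2 := by
          refine Nat.mul_le_mul_right _ ?_
          nlinarith
      _ < (mu * lam) * mu ^ 2 := by
          refine Nat.mul_lt_mul_of_pos_right (Nat.mul_lt_mul_of_pos_right (by omega) (by omega)) h6
      _ = lam * mu ^ 3 := by ring
  have h7 := wide_lower (b := mu ^ 2) (T := lam * mu ^ 3) (n := n) (by omega)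
    (r := 2 * K * lam + 1) (by omega) hrT P b3 hlen o b4
  have h8 : 2 ^ mu ^ 2 < 2 ^ mu ^ 2 := by
    calc 2 ^ mu ^ 2 < 32 * (2 * K * lam + 1) * w := h7
      _ ≤ 32 * ((2 * K + 1) * lam) * lam ^ K := by
          refine Nat.mul_le_mul (Nat.mul_le_mul_left _ ?_) b1
          nlinarith
      _ = (64 * K + 32) * lam ^ (K + 1) := by rw [pow_succ]; ring
      _ ≤ lam * lam ^ (K + 1) := Nat.mul_le_mul_right _ (by omega)
      _ = lam ^ (K + 2) := by rw [← pow_succ']
      _ ≤ (2 ^ (mu + 1)) ^ (K + 2) :=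
          Nat.pow_le_pow_left (Nat.lt_pow_succ_log_self (by norm_num) lam).le _
      _ = 2 ^ ((mu + 1) * (K + 2)) := by rw [← pow_mul]
      _ ≤ 2 ^ mu ^ 2 := by
          refine Nat.pow_le_pow_right (by norm_num) ?_
          nlinarith
  exact lt_irrefl _ h8

/-- **Monotone SC and monotone NC are incomparable.** -/
theorem result :
    (∀ C : ℕ, ∀ᶠ n in atTop,
      (∃ (w : ℕ) (P : List (Instr (Fin n) (Fin w))) (o : Fin w),
        w ≤ Nat.log 2 n ^ (3 * C + 4) ∧ P.length ≤ 9 * n ∧ MonoProg P ∧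
        ∀ x, exec x P o = thin C n x) ∧
      n ≤ Nat.log 2 n ^ (7 * C + 9) * thinT C n ∧
      ∀ (L : Finset (Fin (thinT C n))) (s : ℕ) (Ci : Circ (Fin n) s) (o : Fin s),
        s ≤ 2 ^ (Nat.log 2 n ^ C) → Ci.NegOutside (bitsOf (k := thinK C n) (thin_le C n) L) →
        (∀ x, Ci.val x o = thin C n x) →
        L.card ≤ Nat.log 2 n ^ (2 * C + 1) * (Ci.depth o + 1)) ∧
    (∀ C : ℕ, ∀ᶠ n in atTop,
      (∃ (s : ℕ) (Ci : Circ (Fin n) s) (o : Fin s), s ≤ 6 * n ∧
        Ci.depth o ≤ Nat.log 2 n ^ (C + 4) ∧ Ci.Mono ∧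
        ∀ x, Ci.val x o = wide (Nat.log 2 n / 8) ((Nat.log 2 n / 8) ^ (C + 2)) n x) ∧
      ∀ (w : ℕ) (P : List (Instr (Fin n) (Fin w))) (o : Fin w),
        P.length ≤ 2 ^ (Nat.log 2 n ^ C) → MonoProg P →
        (∀ x, exec x P o = wide (Nat.log 2 n / 8) ((Nat.log 2 n / 8) ^ (C + 2)) n x) →
        n ≤ (Nat.log 2 n ^ (C + 2) * w) ^ 8) ∧
    (∃ F : (n : ℕ) → (Fin n → Bool) → Bool, MonoSC F ∧ ¬ MonoNC F) ∧
    (∃ F : (n : ℕ) → (Fin n → Bool) → Bool,
      (∀ᶠ n in atTop, ∃ (s : ℕ) (Ci : Circ (Fin n) s) (o : Fin s), s ≤ n ∧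
        Ci.depth o ≤ Nat.log 2 n * Nat.log 2 (Nat.log 2 n) ^ 6 ∧ Ci.Mono ∧
        ∀ x, Ci.val x o = F n x) ∧ ¬ MonoSC F) := by
  refine ⟨part1, part2, ?_, near, near_upper, near_lower⟩
  have hK := part1 2
  refine ⟨thin 2, ⟨10, ?_⟩, ?_⟩
  · filter_upwards [hK, eventually_ge_atTop 9, tendsto_log.eventually (eventually_ge_atTop 1)]
      with n h1 h2 h3
    obtain ⟨w, P, o, a1, a2, a3, a4⟩ := h1.1
    refine ⟨w, P, o, a1, ?_, a3, a4⟩
    calc P.length ≤ 9 * n := a2
      _ ≤ n * n := Nat.mul_le_mul_right _ h2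
      _ = n ^ 2 := by ring
      _ ≤ n ^ 10 := Nat.pow_le_pow_right (by omega) (by omega)
  · rintro ⟨M, hM⟩
    obtain ⟨n, h1, h2, h3, h4, h5⟩ := (hK.and (hM.and
      ((tendsto_log.eventually (eventually_ge_atTop (2 * M + 1))).and
      ((ev_log_pow (28 + M)).and (eventually_ge_atTop 1))))).exists
    obtain ⟨s, Ci, o, b1, b2, b3, b4⟩ := h2
    set lam := Nat.log 2 n with hlam
    have hl1 : 1 ≤ lam := by omega
    have hs : s ≤ 2 ^ (lam ^ 2) := b1.trans (n_pow_le (by omega) hl1)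
    have h6 := h1.2.2 univ s Ci o hs (mono_neg b3 _) b4
    rw [card_univ, Fintype.card_fin] at h6
    have hM1 : 1 ≤ lam ^ M := Nat.one_le_pow _ _ hl1
    have h7 : n ≤ 2 * lam ^ (28 + M) := by
      calc n ≤ lam ^ (7 * 2 + 9) * thinT 2 n := h1.2.1
        _ ≤ lam ^ 23 * (lam ^ 5 * (Ci.depth o + 1)) := Nat.mul_le_mul_left _ h6
        _ ≤ lam ^ 23 * (lam ^ 5 * (2 * lam ^ M)) :=
            Nat.mul_le_mul_left _ (Nat.mul_le_mul_left _ (by omega))
        _ = 2 * lam ^ (28 + M) := by ring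
    omega

end Pool.Agent.Results.MP_1a6d78_lc.MonotoneIncomparable
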