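import Pool.Agent.HM94.NL.Class
import Pool.Agent.HM94.NL.Upper

/-!
# Monotone NL is not in monotone SC

A monotone machine (`Machine`, `Machine.MonoIn`) is a deterministic branching program: in every step
it reads one input bit, which depends on the time and on the state; the states are (pre)ordered, the
next state is a monotone function of the state and of the bit, and the set of the accepting states is
upward closed.  It has space `S` (`SpaceLE`) if there are at most `2 ^ S` states, or if the states are
ordered like `S` registers with values in a linear order.  Register programs with AND and OR are the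
case of the states `Fin S → Bool`.

`conn` is directed reachability in graphs with levels of `m` vertices whose edges lead from a level
to the next one (the path has to lead from the first to the last level), `uconn` is undirected
reachability in the same graphs.

(1) Space `m ^ (1 - δ)`: the time is at least `L ^ ((δ - ε) log m)`, `L` the number of layers of
edges, and this holds for random machines which distinguish the graphs with a directed path from
those without an undirected path with advantage `m ^ (- ε / 8)`; the machines need to be monotone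
only in the edges of `L` of the layers.

(2) Space `(k + 2) w + 2`, time `6 m ^ 2 (2 m / w) ^ k` suffice for `2 ^ k` layers.

(3) With `2 ^ k` layers, `k → ∞` as slowly as desired: there are monotone circuits of polynomial size
and depth `α(n) log n`, but no monotone machines with space `n ^ (1 / 2 - ε)` and polynomial time.
-/

set_option autoImplicit false

namespace Pool.Agent.Results.MP_1a6d78_lc.MonotoneReachability

open Finset Filter Pool.Agent.HM94.NL Pool.Agent.HM94.MSC

/-- **Directed reachability has no fast monotone machines with little space.** -/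
theorem result :
    (∀ δ ε : ℝ, 0 < ε → ε ≤ δ → δ ≤ 1 → ∀ᶠ m : ℕ in atTop,
      ∀ (T : ℕ) (L : Finset (Fin T)), 2 ≤ L.card → L.card ≤ m → ∀ (S e len : ℕ)
        {Ω : Type} [Fintype Ω] (μ : Ω → ℝ), (∀ ω, 0 ≤ μ ω) → ∑ ω, μ ω = 1 →
        ∀ {Q : Ω → Type} [∀ ω, Preorder (Q ω)] (M : (ω : Ω) → Machine (Edge T m) (Q ω)),
        (∀ ω, (M ω).MonoIn {e | e.1 ∈ L}) → (∀ ω, SpaceLE (Q ω) S) → (∀ ω, (M ω).len ≤ len) →
        (S : ℝ) ≤ (m : ℝ) ^ (1 - δ) → (2 : ℝ) ^ e ≤ (m : ℝ) ^ (ε / 8) →
        (∀ x x' : Edge T m → Bool, conn x = true → uconn x' = false →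
          (∑ ω, if (M ω).out x' = true then μ ω else 0) + 1 / 2 ^ e ≤
            ∑ ω, if (M ω).out x = true then μ ω else 0) →
        (L.card : ℝ) ^ ((δ - ε) * Real.logb 2 m) ≤ len) ∧
    (∀ k c w : ℕ, 1 ≤ c → 1 ≤ w →
      ∃ M : Machine (Edge (2 ^ k) (c * w)) (Fin ((k + 2) * w + 2) → Bool), M.MonoIn Set.univ ∧
        M.len ≤ 6 * (c * w) ^ 2 * (2 * c) ^ k ∧ ∀ x, M.out x = conn x) ∧
    (∀ α : ℕ → ℕ, Tendsto α atTop atTop → ∃ F : (n : ℕ) → (Fin n → Bool) → Bool,
      (∀ᶠ n in atTop, ∃ (s : ℕ) (C : Circ (Fin n) s) (o : Fin s), s ≤ n ^ 2 ∧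
        C.depth o ≤ α n * Nat.log 2 n ∧ C.Mono ∧ ∀ x, C.val x o = F n x) ∧
      ∀ (ε : ℝ) (K : ℕ), 0 < ε → ∀ᶠ n : ℕ in atTop,
        ∀ (S : ℕ) {Q : Type} [Preorder Q] (M : Machine (Fin n) Q), M.MonoIn Set.univ →
          SpaceLE Q S → (S : ℝ) ≤ (n : ℝ) ^ (1 / 2 - ε) → M.len ≤ n ^ K →
          ¬ ∀ x, M.out x = F n x) := by
  refine ⟨asym, fun k c w hc hw => conn_upper k c w hc hw, fun α hα =>
    ⟨fun n => reach (kk α n) (bb α n) n, class_upper hα, fun ε K hε => ?_⟩⟩
  rcases le_or_gt ε 1 with h | h
  · exact class_lower hα ε hε h K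
  · filter_upwards [class_lower hα 1 (by norm_num) le_rfl K, eventually_ge_atTop 1] with n hn hn1
    intro S Q _ M hM hQ hS hlen
    refine hn S M hM hQ (hS.trans ?_) hlen
    exact Real.rpow_le_rpow_of_exponent_le (by exact_mod_cast hn1) (by linarith)

end Pool.Agent.Results.MP_1a6d78_lc.MonotoneReachability
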