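import Pool.Agent.Q9h3.RO.Final

/-!
# Relative to a random oracle, `NC` is not contained in `SC`

The circuits `treeCircuit n` have polynomial size and polylogarithmic depth. For almost every
oracle, no circuits of polynomial size which carry polylogarithmically many bits over their oracle
gates (in particular: no circuits of polynomial size and polylogarithmic width) compute the same
functions; there is a trade-off between the size and the number of bits.
-/

namespace Pool.Agent.Results.MP_1a6d78_lc.RandomOracleWidth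

open Pool.Agent.Q9h3.ROC
open Pool.Agent.H628R3.RO (randomOracle)

theorem result :
    (∀ n, 1 ≤ n → vert (Nat.log 2 n) (Nat.log 2 n) * (Nat.log 2 n + 1) ^ 2 ≤
      n ^ 2 * (Nat.log 2 n + 2) ^ 3) ∧
    (∀ n, 5 * Nat.log 2 n ^ 2 + (5 * Nat.log 2 n + 1) + 2 * (Nat.log 2 n + 1) ^ 2 ≤
      7 * (Nat.log 2 n + 1) ^ 2) ∧
    (∀ n, (treeCircuit n).DepthLE (7 * (Nat.log 2 n + 1) ^ 4)) ∧
    ∀ᵐ A ∂randomOracle, ∀ᶠ n in Filter.atTop, ∀ e, 6 ≤ e →
      Nat.log 2 n ≤ 2 ^ (Nat.log 2 n - e - 3) →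
      ∀ s ≤ 2 ^ (e * Nat.log 2 n), ∀ Q ≤ 2 ^ (e * Nat.log 2 n), ∀ C : Circuit n s Q,
        C.CarryLE (2 ^ (Nat.log 2 n - e - 3)) → ∃ x, C.eval A x ≠ (treeCircuit n).eval A x :=
  ⟨fun _ hn => vert_le hn, fun n => fan_le (Nat.log 2 n), depth_treeCircuit, lower_bound⟩

end Pool.Agent.Results.MP_1a6d78_lc.RandomOracleWidth
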