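import Pool.Agent.H5Width.Sav3

/-!
# SC versus NC for decomposable, monotone arithmetic and tropical circuits

Directed reachability in the layered graph with `d + 1` layers of `n` vertices has circuits of
polynomial size and depth `O(log n log d)` in all six models of `H5Width.Model`, but in none of
them does it have circuits of polynomial size and sublinear width. The trade-off between size and
width is `(n / w) ^ Θ(log d)`.
-/

namespace Pool.Agent.Results.MP_1a6d78_lc.ReachabilityWidth

open H5Width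

theorem result (μ : Model) :
    -- polynomial size and depth `O(log n log d)`
    (∀ m k : ℕ, 1 ≤ m → HasCircuit (2 ^ m) (2 ^ k) (2 * 2 ^ k * (2 ^ m) ^ 3)
      (k * (m + 1) + 2 * m) (2 * 2 ^ k * (2 ^ m) ^ 3) μ) ∧
    -- polynomial size forces linear width
    (∀ m c D w : ℕ, c < m → 1 ≤ w →
      HasCircuit (2 ^ m) (2 ^ m) ((2 ^ m) ^ c) D w μ → 2 ^ m < 4 ^ (c + 2) * w) ∧
    -- the trade-off: size at least `(n / w) ^ Ω(log d)`
    (∀ n d s D w r k : ℕ, 1 ≤ r → 1 ≤ w → 4 * r ^ 2 * w ≤ n → 2 ^ (k + 1) ≤ d + 1 →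
      HasCircuit n d s D w μ → r ^ k < s) ∧
    -- and it is attained
    (∀ b g k : ℕ, 1 ≤ b → 1 ≤ g →
      HasCircuit (g * b) (2 ^ k) (6 * (g * b) ^ 2 * (2 * g) ^ k) (6 * (g * b) ^ 2 * (2 * g) ^ k)
        ((k + 2) * b + 1) μ) :=
  ⟨fun m k hm => upper_nc m k hm μ,
    fun m c D w hc hw h => lower_linear m c D w μ hc hw h,
    fun n d s D w r k hr hw hn hk h => lower_all n d s D w r k μ hr hw hn hk h,
    fun b g k hb hg => upper_width b g hb hg k μ⟩

end Pool.Agent.Results.MP_1a6d78_lc.ReachabilityWidth
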